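import Pool.Agent.N535.HM.Final

/-!
# MP_26616c_an, Q1: there is no such semigroup

Let `(φ_t)` be a non-elliptic continuous semigroup of holomorphic self-maps of the unit disc with
Denjoy-Wolff point `1`, and let `z_t = C (φ_t 0)` be the orbit of `0` in the right half-plane.
Then `|z_t| ≤ |Im z_s| + 5405 Re z_s` for all `0 ≤ t ≤ s`, and the harmonic measure `h_t (z_s)` of
the two rays `{i y : |y| ≥ |z_t|}` seen from `z_s` is at least `10⁻⁵`.

Sketch of the proof.  In the half-plane the orbit solves `z' = 1 / F(z)` with `Re F > 0` (generator
of the semigroup and Julia's inequality; the case of an imaginary constant generator is trivial).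
Suppose the orbit climbs to a height `Y` and comes down to a much lower height while its real part
stays at most `X`, small against the descent.  For a height `η` let `T η` be the time between the
last passage at `η` on the way up and the first passage at `η` on the way down.  As `F z' = 1`,
`T η` is the integral of `Re F` over the horizontal segment between the two points.  Averaging over
`η` in an interval of length `X'` (the real part on the way down, almost constant on a long stretch
of heights) and using the area mean value property of `Re F` in the disc model, `T ≤ 20 X' P` with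
`P = Re F (X' + i η)`; by Harnack's inequality the way down takes at least time `2 X' P / 9` for
each step of length `X'`.  So `T` decays exponentially with the height, while `P` can decay only
polynomially by Harnack's inequality: a contradiction.
-/

set_option autoImplicit false

open Filter Set Pool.Agent.N535.HM

namespace Pool.Agent.Results.MP_26616c_an.UniversalLowerBound

/-- Every non-elliptic continuous semigroup with Denjoy-Wolff point `1` satisfies
`|z_t| ≤ |Im z_s| + 5405 Re z_s` and `h_t (z_s) ≥ 10⁻⁵` for all `0 ≤ t ≤ s`, so `m t ≥ 10⁻⁵` for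
all `t ≥ 0`; no such semigroup has `liminf m = 0`. -/
theorem result :
    (∀ φ : ℝ → ℂ → ℂ, IsSemigroup φ → NonElliptic φ → DWOne φ →
      (∀ t s : ℝ, 0 ≤ t → t ≤ s →
        ‖orb φ t‖ ≤ |(orb φ s).im| + 5405 * (orb φ s).re ∧
        1 / 100000 ≤ hm ‖orb φ t‖ (orb φ s)) ∧
      (∀ t : ℝ, 0 ≤ t → 1 / 100000 ≤ m φ t) ∧
      1 / 100000 ≤ liminf (m φ) atTop) ∧
    ¬ ∃ φ : ℝ → ℂ → ℂ, IsSemigroup φ ∧ NonElliptic φ ∧ DWOne φ ∧ liminf (m φ) atTop = 0 := by
  refine ⟨fun φ h _ hdw => ⟨fun t s ht hts => ⟨orb_norm h hdw ht hts, main_bound h hdw ht hts⟩,
    fun t ht => m_ge h hdw ht, liminf_ge h hdw⟩, ?_⟩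
  rintro ⟨φ, h, _, hdw, h0⟩
  have h1 := liminf_ge h hdw
  rw [h0] at h1
  norm_num at h1

end Pool.Agent.Results.MP_26616c_an.UniversalLowerBound
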